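import Pool.Agent.helper71.AA.Defs

/-! # Project AA, module L2: the class of the primes; the theorem from the classes -/

namespace Pool.Agent.helper71.AA

open Finset

theorem exists_b (w a₀ : ℕ) (h2 : a₀ % 2 = 0) (h3 : a₀ % 3 ≠ 1) : ∃ b : ℕ,
    b.Coprime (primorial w) ∧ ∀ l : ℕ, l.Prime → l ≤ w → ¬ (a₀ * b ^ 2 ≡ 1 [MOD l]) := by
  classical
  set t : Finset ℕ := (Finset.range (w + 1)).filter Nat.Prime with ht
  have hpp : Set.Pairwise (t : Set ℕ) (Function.onFun Nat.Coprime (fun l : ℕ => l)) := by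
    intro p hp q hq hpq
    simp only [ht, Finset.coe_filter, Set.mem_ofPred_eq] at hp hq
    exact (Nat.coprime_primes hp.2 hq.2).2 hpq
  obtain ⟨b, hb⟩ := Nat.chineseRemainderOfFinset
    (fun l : ℕ => if l < 5 then 1 else if a₀ % l = 1 then 2 else 1) (fun l : ℕ => l) t
    (by
      intro i hi
      simp only [ht, Finset.mem_filter] at hi
      exact hi.2.ne_zero) hpp
  refine ⟨b, ?_, ?_⟩
  · unfold primorial
    refine Nat.Coprime.prod_right ?_
    intro l hl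
    have hlt : l ∈ t := hl
    have hlp : l.Prime := (Finset.mem_filter.1 hl).2
    have hbl := hb l hlt
    refine Nat.Coprime.symm ((Nat.Prime.coprime_iff_not_dvd hlp).2 ?_)
    intro hdvd
    have h0 : b ≡ 0 [MOD l] := (Nat.modEq_zero_iff_dvd).2 hdvd
    have h1 := (hbl.symm.trans h0)
    split_ifs at h1 with h5 hm
    · exact hlp.one_lt.ne' (Nat.dvd_one.1 ((Nat.modEq_zero_iff_dvd).1 h1))
    · have := Nat.le_of_dvd (by norm_num) ((Nat.modEq_zero_iff_dvd).1 h1)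
      omega
    · exact hlp.one_lt.ne' (Nat.dvd_one.1 ((Nat.modEq_zero_iff_dvd).1 h1))
  · intro l hlp hlw hcon
    have hlt : l ∈ t := by
      simp only [ht, Finset.mem_filter, Finset.mem_range]
      exact ⟨by omega, hlp⟩
    have hbl := hb l hlt
    split_ifs at hbl with h5 hm
    · have h1 : a₀ * 1 ^ 2 ≡ 1 [MOD l] :=
        ((Nat.ModEq.mul_left a₀ (hbl.pow 2)).symm).trans hcon
      rw [one_pow, mul_one] at h1
      have hl2 := hlp.two_le
      have h4 : l ≠ 4 := by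
        rintro rfl
        exact absurd hlp (by norm_num)
      have hl : l = 2 ∨ l = 3 := by omega
      rcases hl with rfl | rfl
      · have := h1
        unfold Nat.ModEq at this
        omega
      · have := h1
        unfold Nat.ModEq at this
        omega
    · have h1 : a₀ * 2 ^ 2 ≡ 1 [MOD l] :=
        ((Nat.ModEq.mul_left a₀ (hbl.pow 2)).symm).trans hcon
      have ha : a₀ ≡ 1 [MOD l] := by
        unfold Nat.ModEq
        rw [hm, Nat.mod_eq_of_lt (by omega : 1 < l)]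
      have h4 : 1 * 2 ^ 2 ≡ 1 [MOD l] := (ha.mul_right (2 ^ 2)).symm.trans h1
      have h41 : (4 : ℕ) % l = 1 % l := h4
      rw [Nat.mod_eq_of_lt (by omega : 1 < l), Nat.mod_eq_of_lt (by omega : 4 < l)] at h41
      omega
    · have h1 : a₀ * 1 ^ 2 ≡ 1 [MOD l] :=
        ((Nat.ModEq.mul_left a₀ (hbl.pow 2)).symm).trans hcon
      rw [one_pow, mul_one] at h1
      unfold Nat.ModEq at h1
      rw [Nat.mod_eq_of_lt (by omega : 1 < l)] at h1
      exact hm h1

/-- the theorem, from the statement `per_class` -/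
theorem final_of
    (hpc : ∀ ε : ℝ, 0 < ε → ∃ δ : ℝ, 0 < δ ∧ ∃ w : ℕ, 10 ≤ w ∧
      ∃ c C X₀ : ℝ, 0 < c ∧ 0 < C ∧ ∀ X P : ℝ, X₀ ≤ X → Rg C X P → ∀ a₀ b : ℕ,
      b.Coprime (primorial w) → (∀ l : ℕ, l.Prime → l ≤ w → ¬ (a₀ * b ^ 2 ≡ 1 [MOD l])) →
        ((((As (primorial w) a₀ X).filter (fun a => (((Gp a P (X ^ δ)).card : ℕ) : ℝ) <
          c * P / (Real.log P * Real.log X))).card : ℕ) : ℝ) ≤ ε * (X / (primorial w : ℝ)))
    (ε : ℝ) (hε : 0 < ε) : ∃ c δ C X₀ : ℝ, 0 < c ∧ 0 < δ ∧ 0 < C ∧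
    ∀ X P : ℝ, X₀ ≤ X → C * Real.log X * Real.log (Real.log X) ≤ P → P ≤ X ^ (0.001 : ℝ) →
      ((((Icc 1 ⌊X⌋₊).filter (fun a => a % 2 = 0 ∧ a % 3 ≠ 1 ∧
        (((Gp a P (X ^ δ)).card : ℕ) : ℝ) < c * P / (Real.log P * Real.log X))).card : ℕ) : ℝ)
        ≤ ε * X := by
  classical
  obtain ⟨δ, hδ, w, hw, c, C, X₀, hc, hC, h⟩ := hpc ε hε
  refine ⟨c, δ, C, max X₀ 1, hc, hδ, hC, ?_⟩
  intro X P hX hP1 hP2
  have hX0 : X₀ ≤ X := (le_max_left _ _).trans hX
  have hX1 : 1 ≤ X := (le_max_right _ _).trans hX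
  set W := primorial w with hW
  have hWpos : 0 < W := primorial_pos w
  have h2W : 2 ∣ W := by
    refine Finset.dvd_prod_of_mem (fun p => p) (Finset.mem_filter.2 ⟨?_, Nat.prime_two⟩)
    exact Finset.mem_range.2 (by omega)
  have h3W : 3 ∣ W := by
    refine Finset.dvd_prod_of_mem (fun p => p) (Finset.mem_filter.2 ⟨?_, Nat.prime_three⟩)
    exact Finset.mem_range.2 (by omega)
  set T : Finset ℕ := (Finset.range W).filter (fun a₀ => a₀ % 2 = 0 ∧ a₀ % 3 ≠ 1) with hT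
  have hsub : (Icc 1 ⌊X⌋₊).filter (fun a => a % 2 = 0 ∧ a % 3 ≠ 1 ∧
        (((Gp a P (X ^ δ)).card : ℕ) : ℝ) < c * P / (Real.log P * Real.log X)) ⊆
      T.biUnion (fun a₀ => (As W a₀ X).filter (fun a => (((Gp a P (X ^ δ)).card : ℕ) : ℝ) <
          c * P / (Real.log P * Real.log X))) := by
    intro a ha
    obtain ⟨ha1, ha2, ha3, ha4⟩ := Finset.mem_filter.1 ha
    refine Finset.mem_biUnion.2 ⟨a % W, ?_, ?_⟩
    · refine Finset.mem_filter.2 ⟨Finset.mem_range.2 (Nat.mod_lt _ hWpos), ?_, ?_⟩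
      · rw [Nat.mod_mod_of_dvd _ h2W]
        exact ha2
      · rw [Nat.mod_mod_of_dvd _ h3W]
        exact ha3
    · refine Finset.mem_filter.2 ⟨?_, ha4⟩
      exact Finset.mem_filter.2 ⟨ha1, (Nat.mod_modEq a W).symm⟩
  have hcard := (Finset.card_le_card hsub).trans Finset.card_biUnion_le
  have hcard' : ((((Icc 1 ⌊X⌋₊).filter (fun a => a % 2 = 0 ∧ a % 3 ≠ 1 ∧
        (((Gp a P (X ^ δ)).card : ℕ) : ℝ) < c * P / (Real.log P * Real.log X))).card : ℕ) : ℝ) ≤
      ∑ a₀ ∈ T, ((((As W a₀ X).filter (fun a => (((Gp a P (X ^ δ)).card : ℕ) : ℝ) <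
          c * P / (Real.log P * Real.log X))).card : ℕ) : ℝ) := by
    exact_mod_cast hcard
  refine hcard'.trans ?_
  have hterm : ∀ a₀ ∈ T, ((((As W a₀ X).filter (fun a => (((Gp a P (X ^ δ)).card : ℕ) : ℝ) <
          c * P / (Real.log P * Real.log X))).card : ℕ) : ℝ) ≤ ε * (X / (W : ℝ)) := by
    intro a₀ ha₀
    obtain ⟨-, h20, h30⟩ := Finset.mem_filter.1 ha₀
    obtain ⟨b, hb1, hb2⟩ := exists_b w a₀ h20 h30
    exact h X P hX0 ⟨hP1, hP2⟩ a₀ b hb1 hb2
  have hsum := Finset.sum_le_card_nsmul T _ _ hterm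
  refine hsum.trans ?_
  rw [nsmul_eq_mul]
  have hTc : (T.card : ℝ) ≤ W := by
    have : T.card ≤ (Finset.range W).card := Finset.card_filter_le _ _
    rw [Finset.card_range] at this
    exact_mod_cast this
  have hWr : (0 : ℝ) < W := by exact_mod_cast hWpos
  calc (T.card : ℝ) * (ε * (X / (W : ℝ))) ≤ W * (ε * (X / (W : ℝ))) := by
        refine mul_le_mul_of_nonneg_right hTc ?_
        positivity
    _ = ε * X := by
        field_simp

end Pool.Agent.helper71.AA
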